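import Pool.Agent.W276.GE.Basic

/-! GE-IDEAL. -/

set_option autoImplicit false

open Height NumberField

noncomputable section

namespace Pool.Agent.W108.GE

open Pool.Agent.W276.GE

theorem finite_cell {n d t : ℕ} (F : Fin n → E n d → ℤ) (w : E n t → ℝ) :
    (Cell F w).Finite := by
  classical
  let B : E n t → ℝ := fun α => ∑ j, ∑ γ : E n (t - d), |(sh (F j) γ α : ℝ)|
  refine (Set.finite_Icc (fun α => ⌊w α - B α⌋) (fun α => ⌈w α + B α⌉)).subset ?_
  rintro G ⟨θ, h1, h2⟩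
  have key : ∀ α, |∑ j, ∑ γ, θ j γ * (sh (F j) γ α : ℝ)| ≤ B α := by
    intro α
    refine (Finset.abs_sum_le_sum_abs _ _).trans (Finset.sum_le_sum fun j _ => ?_)
    refine (Finset.abs_sum_le_sum_abs _ _).trans (Finset.sum_le_sum fun γ _ => ?_)
    rw [abs_mul, abs_of_nonneg (h1 j γ).1]
    exact mul_le_of_le_one_left (abs_nonneg _) (h1 j γ).2
  refine ⟨fun α => ?_, fun α => ?_⟩
  · have h3 := (abs_le.1 (key α)).1
    have h4 : w α - B α ≤ (G α : ℝ) := by rw [h2 α]; linarith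
    exact_mod_cast (Int.floor_le _).trans h4
  · have h3 := (abs_le.1 (key α)).2
    have h4 : (G α : ℝ) ≤ w α + B α := by rw [h2 α]; linarith
    exact_mod_cast h4.trans (Int.le_ceil _)

section ring
variable {R : Type} [CommRing R] {n : ℕ}

theorem mono_mem (P : Fin n → R) {s : ℕ} (γ : E n s) :
    ∏ i, P i ^ γ.1 i ∈ Ideal.span (Set.range P) ^ s := by
  have h1 : ∏ i, P i ^ γ.1 i ∈ ∏ i, Ideal.span (Set.range P) ^ γ.1 i :=
    Ideal.prod_mem_prod fun i _ =>
      Ideal.pow_mem_pow (Ideal.subset_span (Set.mem_range_self i)) _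
  rwa [Finset.prod_pow_eq_pow_sum, E_sum γ] at h1

theorem ev_mem (P : Fin n → R) {t : ℕ} (g : E n t → ℤ) :
    ev g P ∈ Ideal.span (Set.range P) ^ t :=
  Ideal.sum_mem _ fun α _ => Ideal.mul_mem_left _ _ (mono_mem P α)

theorem pow_le_span (P : Fin n → R) (t : ℕ) :
    Ideal.span (Set.range P) ^ t ≤
      Ideal.span (Set.range fun α : E n t => ∏ i, P i ^ α.1 i) := by
  classical
  induction t with
  | zero =>
    rw [pow_zero, Ideal.one_eq_top, top_le_iff, Ideal.eq_top_iff_one]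
    refine Ideal.subset_span ⟨⟨fun _ => 0, mem_E.2 (by simp)⟩, by simp⟩
  | succ t ih =>
    rw [pow_succ]
    refine (Ideal.mul_mono_left ih).trans ?_
    rw [Ideal.span_mul_span', Ideal.span_le]
    rintro _ ⟨_, ⟨α, rfl⟩, _, ⟨i, rfl⟩, rfl⟩
    refine Ideal.subset_span ⟨⟨fun j => α.1 j + if j = i then 1 else 0, mem_E.2 ?_⟩, ?_⟩
    · rw [Finset.sum_add_distrib, E_sum α]
      simp
    · simp only [pow_add, Finset.prod_mul_distrib]
      congr 1
      rw [Finset.prod_eq_single i]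
      · simp
      · intro j _ hj
        simp [hj]
      · simp

end ring

theorem exists_ev {n t : ℕ} {K : Type} [Field K] [NumberField K] (P : Fin n → 𝓞 K)
    (x : 𝓞 K) (hx : x ∈ Ideal.span (Set.range P) ^ t) :
    ∃ G : Module.Free.ChooseBasisIndex ℤ (𝓞 K) → E n t → ℤ,
      x = ∑ k, RingOfIntegers.basis K k * ev (G k) P := by
  obtain ⟨c, hc⟩ := (Ideal.mem_span_range_iff_exists_fun).1 (pow_le_span P t hx)
  refine ⟨fun k α => (RingOfIntegers.basis K).repr (c α) k, ?_⟩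
  have h1 : ∀ α, c α = ∑ k, (((RingOfIntegers.basis K).repr (c α) k : ℤ) : 𝓞 K) *
      RingOfIntegers.basis K k := by
    intro α
    conv_lhs => rw [← (RingOfIntegers.basis K).sum_repr (c α)]
    simp only [zsmul_eq_mul]
  rw [← hc]
  simp only [ev, Finset.mul_sum]
  rw [Finset.sum_comm]
  refine Finset.sum_congr rfl fun α _ => ?_
  conv_lhs => rw [h1 α]
  rw [Finset.sum_mul]
  refine Finset.sum_congr rfl fun k _ => ?_
  ring

theorem exists_cell {n d t : ℕ} (hdt : d ≤ t) (F : Fin n → E n d → ℤ) (hF : Spans F t)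
    {R : Type} [CommRing R] (P : Fin n → R) (w : E n t → ℝ) (G : E n t → ℤ) :
    ∃ G' ∈ Cell F w, ev G P - ev G' P ∈
      Ideal.span (Set.range fun i => ev (F i) P) * Ideal.span (Set.range P) ^ (t - d) := by
  obtain ⟨θ, hθ⟩ := hF fun α => (G α : ℝ) - w α
  let M : E n t → ℤ := ∑ j, ∑ γ : E n (t - d), ⌊θ j γ⌋ • (fun α : E n t => sh (F j) γ α)
  have hM : ∀ α, (M α : ℝ) = ∑ j, ∑ γ, (⌊θ j γ⌋ : ℝ) * (sh (F j) γ α : ℝ) := by
    intro α
    simp only [M, Finset.sum_apply, Pi.smul_apply, smul_eq_mul, Int.cast_sum, Int.cast_mul]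
  refine ⟨G - M, ⟨fun j γ => Int.fract (θ j γ),
    fun j γ => ⟨Int.fract_nonneg _, (Int.fract_lt_one _).le⟩, fun α => ?_⟩, ?_⟩
  · rw [Pi.sub_apply, Int.cast_sub, hM α]
    have h1 := hθ α
    have h2 : ∑ j, ∑ γ, Int.fract (θ j γ) * (sh (F j) γ α : ℝ) =
        ∑ j, ∑ γ, θ j γ * (sh (F j) γ α : ℝ) -
          ∑ j, ∑ γ, (⌊θ j γ⌋ : ℝ) * (sh (F j) γ α : ℝ) := by
      simp only [← Finset.sum_sub_distrib]
      refine Finset.sum_congr rfl fun j _ => Finset.sum_congr rfl fun γ _ => ?_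
      rw [Int.fract]
      ring
    linarith
  · rw [ev_sub, sub_sub_cancel]
    simp only [M]
    rw [ev_sum]
    refine Ideal.sum_mem _ fun j _ => ?_
    rw [ev_sum]
    refine Ideal.sum_mem _ fun γ _ => ?_
    rw [ev_zsmul, ev_sh (Nat.sub_add_cancel hdt)]
    refine Ideal.mul_mem_left _ _ ?_
    rw [mul_comm (Ideal.span (Set.range fun i => ev (F i) P))]
    exact Ideal.mul_mem_mul (mono_mem P γ) (Ideal.subset_span (Set.mem_range_self j))

theorem ideal : S_ideal := by
  classical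
  intro n d t hdt F hF K _ _ P hP w
  set a : Ideal (𝓞 K) := Ideal.span (Set.range P) with ha
  set b : Ideal (𝓞 K) := Ideal.span (Set.range fun i => ev (F i) P) with hb
  set S : Set (𝓞 K) := (fun G : E n t → ℤ => ev G P) '' Cell F w with hS
  have hSfin : S.Finite := (finite_cell F w).image _
  have : Finite S := hSfin
  have ha0 : a ≠ ⊥ := by
    intro h
    apply hP
    funext i
    have h1 : P i ∈ a := Ideal.subset_span (Set.mem_range_self i)
    rw [h, Ideal.mem_bot] at h1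
    simpa using h1
  have hba : b ≤ a ^ d := by
    rw [hb, Ideal.span_le]
    rintro _ ⟨i, rfl⟩
    exact ev_mem P (F i)
  set I : Ideal (𝓞 K) := a ^ t with hI
  set J : Ideal (𝓞 K) := b * a ^ (t - d) with hJ
  have hJI : J ≤ I := by
    have h1 : a ^ t = a ^ d * a ^ (t - d) := by rw [← pow_add, Nat.add_sub_cancel' hdt]
    rw [hI, hJ, h1]
    exact Ideal.mul_mono_left hba
  -- representatives
  have hrep : ∀ x : 𝓞 K, x ∈ I → ∃ s : Module.Free.ChooseBasisIndex ℤ (𝓞 K) → S,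
      x - ∑ k, RingOfIntegers.basis K k * (s k : 𝓞 K) ∈ J := by
    intro x hx
    obtain ⟨G, hG⟩ := exists_ev P x hx
    choose G' hG' hGJ using fun k => exists_cell hdt F hF P w (G k)
    refine ⟨fun k => ⟨ev (G' k) P, ⟨G' k, hG' k, rfl⟩⟩, ?_⟩
    rw [hG, ← Finset.sum_sub_distrib]
    refine Ideal.sum_mem _ fun k _ => ?_
    rw [← mul_sub]
    exact Ideal.mul_mem_left _ _ (hGJ k)
  have hidx : J.toAddSubgroup.relIndex I.toAddSubgroup ≤
      S.ncard ^ (Module.finrank ℚ K) := by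
    have hq : ∀ q : I.toAddSubgroup ⧸ (J.toAddSubgroup.addSubgroupOf I.toAddSubgroup),
        ∃ (s : Module.Free.ChooseBasisIndex ℤ (𝓞 K) → S) (x : I.toAddSubgroup),
          (QuotientAddGroup.mk x : I.toAddSubgroup ⧸ _) = q ∧
          (x : 𝓞 K) - ∑ k, RingOfIntegers.basis K k * (s k : 𝓞 K) ∈ J := by
      intro q
      obtain ⟨x, rfl⟩ := QuotientAddGroup.mk_surjective q
      obtain ⟨s, hs⟩ := hrep x.1 x.2
      exact ⟨s, x, rfl, hs⟩
    choose ψ X hX hψ using hq
    have hinj : Function.Injective ψ := by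
      intro q q' h
      rw [← hX q, ← hX q']
      rw [QuotientAddGroup.eq, AddSubgroup.mem_addSubgroupOf]
      have h1 := J.sub_mem (hψ q') (hψ q)
      rw [h] at h1
      have h2 : ((-(X q) + X q' : I.toAddSubgroup) : 𝓞 K) =
          ((X q' : 𝓞 K) - ∑ k, RingOfIntegers.basis K k * (ψ q' k : 𝓞 K)) -
          ((X q : 𝓞 K) - ∑ k, RingOfIntegers.basis K k * (ψ q' k : 𝓞 K)) := by
        push_cast
        ring
      rw [h2]
      exact h1
    have h3 := Nat.card_le_card_of_injective ψ hinj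
    rw [Nat.card_fun] at h3
    rw [← RingOfIntegers.rank, Module.finrank_eq_card_chooseBasisIndex, ← Nat.card_eq_fintype_card]
    exact h3
  have hmul : J.toAddSubgroup.relIndex I.toAddSubgroup * Ideal.absNorm I = Ideal.absNorm J := by
    rw [Ideal.absNorm_eq_index, Ideal.absNorm_eq_index]
    exact AddSubgroup.relIndex_mul_index (Submodule.toAddSubgroup_mono hJI)
  have hNa : 0 < Ideal.absNorm a := Nat.pos_of_ne_zero (Ideal.absNorm_ne_zero_iff_mem_nonZeroDivisors.2
    (mem_nonZeroDivisors_iff_ne_zero.2 ha0))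
  have h4 : Ideal.absNorm b = J.toAddSubgroup.relIndex I.toAddSubgroup * Ideal.absNorm a ^ d := by
    rw [hI, hJ, map_mul, map_pow, map_pow] at hmul
    have h5 : Ideal.absNorm a ^ t = Ideal.absNorm a ^ d * Ideal.absNorm a ^ (t - d) := by
      rw [← pow_add, Nat.add_sub_cancel' hdt]
    rw [h5, ← mul_assoc] at hmul
    exact (Nat.eq_of_mul_eq_mul_right (pow_pos hNa _) hmul).symm
  have h6 : Ideal.absNorm b ≤ Ideal.absNorm a ^ d * S.ncard ^ (Module.finrank ℚ K) := by
    rw [h4, mul_comm]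
    exact Nat.mul_le_mul_left _ hidx
  exact_mod_cast h6

end Pool.Agent.W108.GE
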